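import Pool.Agent.helper30.QP.SpecC

/-!
# QP, row PNS: the part prime to `N` is the sum of the twists of exact order `N`
-/

set_option autoImplicit false

open Polynomial Pool.Agent.helper7.IG

noncomputable section

namespace Pool.Agent.QP

lemma PNS_one (F : LL) : PN 1 F = F := by
  ext n
  rw [PN_coeff]
  simp

lemma PNS_add_self (F : LL) : F + F = 0 := by
  ext n
  rw [HahnSeries.coeff_add, HahnSeries.coeff_zero]
  exact CharTwo.add_self_eq_zero _

/-- The powers `ω ^ j`, `0 < j < l`, have order `l`. -/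
lemma PNS_order {l : ℕ} (hl : l.Prime) {ω : kkˣ} (hω : IsPrimitiveRoot ω l) {j : ℕ} (hj0 : j ≠ 0)
    (hjl : j < l) : orderOf (ω ^ j) = l := by
  have h1 : j.Coprime l := by
    rw [Nat.coprime_comm]
    exact (Nat.Prime.coprime_iff_not_dvd hl).2 (fun h => absurd (Nat.le_of_dvd (by omega) h) (by omega))
  exact (hω.pow_of_coprime j h1).eq_orderOf.symm

lemma PNS_mem {l N : ℕ} (hl : l.Prime) (hc : l.Coprime N) (hN0 : N ≠ 0) {ω : kkˣ}
    (hω : IsPrimitiveRoot ω l) (ζ : kkˣ) :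
    orderOf ζ = l * N ↔ ∃ ξ : kkˣ, ∃ j : ℕ, orderOf ξ = N ∧ j ≠ 0 ∧ j < l ∧ ξ * ω ^ j = ζ := by
  have hl0 : l ≠ 0 := hl.ne_zero
  constructor
  · intro hζ
    have hb : (1 : ℤ) = l * Nat.gcdA l N + N * Nat.gcdB l N := by
      have := Nat.gcd_eq_gcd_ab l N
      rw [hc] at this
      exact_mod_cast this
    set a : ℤ := Nat.gcdA l N
    set b : ℤ := Nat.gcdB l N
    have hz : ζ ^ (l * N) = 1 := by rw [← hζ]; exact pow_orderOf_eq_one ζ
    have hzz : ζ ^ ((l : ℤ) * (N : ℤ)) = 1 := by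
      rw [← Nat.cast_mul, zpow_natCast]; exact hz
    have h1 : (ζ ^ ((N : ℤ) * b)) ^ l = 1 := by
      rw [← zpow_natCast, ← zpow_mul]
      have : (N : ℤ) * b * l = (l : ℤ) * (N : ℤ) * b := by ring
      rw [this, zpow_mul, hzz, one_zpow]
    have h2 : (ζ ^ ((l : ℤ) * a)) ^ N = 1 := by
      rw [← zpow_natCast, ← zpow_mul]
      have : (l : ℤ) * a * N = (l : ℤ) * (N : ℤ) * a := by ring
      rw [this, zpow_mul, hzz, one_zpow]
    have : NeZero l := ⟨hl0⟩
    obtain ⟨j, hjl, hj⟩ := hω.eq_pow_of_mem_rootsOfUnity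
      ((mem_rootsOfUnity l _).2 h1)
    have h3 : ζ ^ ((l : ℤ) * a) * ω ^ j = ζ := by
      rw [hj, ← zpow_add, ← hb, zpow_one]
    have h4 : orderOf (ζ ^ ((l : ℤ) * a)) ∣ N := orderOf_dvd_of_pow_eq_one h2
    have h5 : orderOf (ω ^ j) ∣ l := by
      rw [hj]
      exact orderOf_dvd_of_pow_eq_one h1
    have h6 : orderOf (ζ ^ ((l : ℤ) * a)) * orderOf (ω ^ j) = l * N := by
      rw [← Commute.orderOf_mul_eq_mul_orderOf_of_coprime (Commute.all _ _), h3, hζ]
      exact (hc.symm.coprime_dvd_left h4).coprime_dvd_right h5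
    have h7 : orderOf (ζ ^ ((l : ℤ) * a)) ≤ N := Nat.le_of_dvd (Nat.pos_of_ne_zero hN0) h4
    have h8 : orderOf (ω ^ j) ≤ l := Nat.le_of_dvd hl.pos h5
    have hN1 : 0 < N := Nat.pos_of_ne_zero hN0
    have hl1 : 0 < l := hl.pos
    have h9 : orderOf (ζ ^ ((l : ℤ) * a)) = N := by
      by_contra hne
      have h10 : orderOf (ζ ^ ((l : ℤ) * a)) < N := lt_of_le_of_ne h7 hne
      have h11 : orderOf (ζ ^ ((l : ℤ) * a)) * orderOf (ω ^ j) < N * l :=
        lt_of_le_of_lt (Nat.mul_le_mul_left _ h8) (Nat.mul_lt_mul_of_pos_right h10 hl1)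
      rw [h6, mul_comm] at h11
      exact absurd h11 (lt_irrefl _)
    refine ⟨ζ ^ ((l : ℤ) * a), j, h9, ?_, hjl, h3⟩
    rintro rfl
    rw [pow_zero, orderOf_one, mul_one, h9] at h6
    have : 2 ≤ l := hl.two_le
    have : 2 * N ≤ l * N := Nat.mul_le_mul_right _ this
    omega
  · rintro ⟨ξ, j, h1, h2, h3, rfl⟩
    have h4 := PNS_order hl hω h2 h3
    rw [Commute.orderOf_mul_eq_mul_orderOf_of_coprime (Commute.all _ _), h1, h4, mul_comm]
    rw [h1, h4]
    exact hc.symm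

lemma PNS_inj {l N : ℕ} (hc : l.Coprime N) {ω : kkˣ} (hω : IsPrimitiveRoot ω l)
    {ξ ξ' : kkˣ} {i j : ℕ} (hξ : orderOf ξ = N) (hξ' : orderOf ξ' = N) (hi : i < l) (hj : j < l)
    (h : ξ * ω ^ i = ξ' * ω ^ j) : ξ = ξ' ∧ i = j := by
  have h1 : ξ ^ N = 1 := by rw [← hξ]; exact pow_orderOf_eq_one ξ
  have h2 : ξ' ^ N = 1 := by rw [← hξ']; exact pow_orderOf_eq_one ξ'
  have h3 : (ω ^ N) ^ i = (ω ^ N) ^ j := by
    have h4 : (ξ * ω ^ i) ^ N = (ξ' * ω ^ j) ^ N := by rw [h]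
    rw [mul_pow, mul_pow, h1, h2, one_mul, one_mul, ← pow_mul, ← pow_mul] at h4
    rw [← pow_mul, ← pow_mul, mul_comm N i, mul_comm N j]
    exact h4
  have h5 : i = j := (hω.pow_of_coprime N hc.symm).pow_inj hi hj h3
  subst h5
  exact ⟨mul_right_cancel h, rfl⟩

theorem PNS (hPNA : PNA_stmt) : PNS_stmt := by
  classical
  intro N
  induction N using Nat.strong_induction_on with
  | _ N ih =>
    intro hodd hsq
    by_cases hN1 : N = 1
    · subst hN1
      refine ⟨{1}, ?_, ?_⟩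
      · intro ξ
        rw [Finset.mem_singleton, orderOf_eq_one_iff]
      · intro F
        rw [Finset.sum_singleton, sig_one, PNS_one]
    · have hl : (N.minFac).Prime := Nat.minFac_prime hN1
      obtain ⟨N', hN'⟩ := Nat.minFac_dvd N
      generalize N.minFac = l at hl hN'
      subst hN'
      have hN0 : N' ≠ 0 := by
        rintro rfl
        rw [mul_zero] at hodd
        exact absurd hodd (by decide)
      have hodd' := Nat.odd_mul.1 hodd
      have hsq' := Nat.squarefree_mul_iff.1 hsq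
      have hc : l.Coprime N' := hsq'.1
      have hl2 : l ≠ 2 := by
        rintro rfl
        exact absurd hodd'.1 (by decide)
      have hlt : N' < l * N' := by
        have h1 := hl.two_le
        have h2 : 2 * N' ≤ l * N' := Nat.mul_le_mul_right _ h1
        omega
      obtain ⟨Ξ, hΞ, hF⟩ := ih N' hlt hodd'.2 hsq'.2.2
      obtain ⟨ω, hω⟩ := exists_primitive l hodd'.1
      refine ⟨(Ξ ×ˢ (Finset.range l).erase 0).image (fun p => p.1 * ω ^ p.2), ?_, ?_⟩
      · intro ζ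
        rw [PNS_mem hl hc hN0 hω, Finset.mem_image]
        constructor
        · rintro ⟨⟨ξ, j⟩, hp, rfl⟩
          rw [Finset.mem_product, Finset.mem_erase, Finset.mem_range] at hp
          exact ⟨ξ, j, (hΞ ξ).1 hp.1, hp.2.1, hp.2.2, rfl⟩
        · rintro ⟨ξ, j, h1, h2, h3, rfl⟩
          refine ⟨(ξ, j), ?_, rfl⟩
          rw [Finset.mem_product, Finset.mem_erase, Finset.mem_range]
          exact ⟨(hΞ ξ).2 h1, h2, h3⟩
      · intro F
        rw [Finset.sum_image, Finset.sum_product_right]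
        · rw [hPNA N' l F ω hl hl2 hω]
          have h0 : (0 : ℕ) ∈ Finset.range l := Finset.mem_range.2 hl.pos
          rw [← Finset.add_sum_erase _ _ h0, pow_zero, sig_one, ← add_assoc, PNS_add_self, zero_add]
          refine Finset.sum_congr rfl (fun j _ => ?_)
          rw [hF F, map_sum]
          refine Finset.sum_congr rfl (fun ξ _ => ?_)
          rw [sig_sig one_ne_zero one_ne_zero, one_mul, pow_one]
        · rintro ⟨ξ, i⟩ hp ⟨ξ', j⟩ hp' h
          rw [Finset.mem_coe, Finset.mem_product, Finset.mem_erase, Finset.mem_range] at hp hp'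
          obtain ⟨h1, h2⟩ := PNS_inj hc hω ((hΞ ξ).1 hp.1) ((hΞ ξ').1 hp'.1) hp.2.2 hp'.2.2 h
          exact Prod.ext h1 h2

end Pool.Agent.QP
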